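import Mathlib
import Pool.Agent.Q246.RZ.Parts

/-!
# Translates of all points by the rational multiples of one point: the sum of the defects

`G = ∏ T_i`, where every `T_i` is the multiplicative group (`none`) or an elliptic curve `ℂ / L.lattice`
(`some L`), possibly with complex multiplication and with isogenous or equal factors, with invariants in
any subfield `F` of `ℂ`; for instance `F` can be the algebraic closure of the field generated by the
periods of `G`.  The Lie algebra of `G` is `ℂ^ι`, and up to algebraic numbers over `F` the components of
`exp_G r` are the numbers `e^(r_i)` resp. `℘(r_i)`.  Write `td r` for the transcendence degree over `F`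
of the components of `r` and `exp_G r`.

If `td w ≥ m`, then for every point `z` of `Lie G` the sum of the defects `max (0, m - td (z + t w))`
over all rational `t` is at most `m`.  For `m = dim G` this says that one point `w` with `td w ≥ dim G`
gives the inequality of the problem on every line `z + ℚ w` with the exception of at most `dim G` points,
with the sum of the defects at most `dim G`.
-/

set_option autoImplicit false

namespace Pool.Agent.Results.MP_4aec10_nt.DefectsOnRationalLines

open Pool.Agent.Q246.RZ.Parts

/-- **Main result.** Let `F` be a subfield of `ℂ`, and `G = ∏ T_i`, where every `T_i` is the
multiplicative group or an elliptic curve with invariants in `F`.  If `td w ≥ m`, then for every point `z`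
of `Lie G` the sum of `max (0, m - td (z + t w))` over any finite set of rational numbers `t` is at most
`m`. -/
theorem result (F : IntermediateField ℚ ℂ) (ι : Type) [Fintype ι] (T : ι → Option PeriodPair)
    (hT : ∀ i, Inv F (T i)) (m : ℕ) (z w : ι → ℂ) (h : m ≤ td F T w) (S : Finset ℚ) :
    ∑ t ∈ S, (m - td F T (fun i => z i + (t : ℂ) * w i)) ≤ m :=
  (all F ι T hT).2.2 m z w h S

end Pool.Agent.Results.MP_4aec10_nt.DefectsOnRationalLines
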