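import Mathlib
import Pool.Agent.Q246.RZ.Parts

/-!
# Lindemann–Weierstrass on lines, relative to any point of the Lie algebra of `G`

`G = ∏ T_i`, where every `T_i` is the multiplicative group (`none`) or an elliptic curve `ℂ / L.lattice`
(`some L`), possibly with complex multiplication and with isogenous or equal factors, with invariants in
a subfield `F` of `ℂ` of finite transcendence degree over `ℚ`; for instance `F` can be the algebraic
closure of the field generated by the periods of `G`.  The Lie algebra of `G` is `ℂ^ι`, and up to
algebraic numbers over `F` the components of `exp_G r` are the numbers `e^(r_i)` resp. `℘(r_i)`.  Write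
`td r` for the transcendence degree over `F` of the components of `r` and `exp_G r`.

Let `w` be any point of `Lie G`.  There is a finite dimensional `ℚ`-space `V` of algebraic numbers such
that for every field `K` of algebraic numbers, every tuple `γ` of `n` algebraic numbers which are linearly
independent over `K` modulo `K V`, and every point `z` of `Lie 𝔾ₘ^n = ℂ^n` the points `(z + t γ, w)` of
`Lie (𝔾ₘ^n × G)` have `td (z + t γ, w) ≥ n + td w` for all `t` in `K` but at most `n`; more precisely the
sum over `t` of the defects is at most `n`, and at most `n - |J|` if the `z_j`, `j` in `J`, are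
algebraically independent over `F (w, exp_G w)`.  Moreover `td (γ, w) ≥ n + td w`.  So if the inequality
of the problem holds for `(G, w)`, then it holds for `(𝔾ₘ^n × G, (z + t γ, w))` for all `t` in `K` but at
most `n`; for `G = 0` there is no condition.
-/

set_option autoImplicit false

namespace Pool.Agent.Results.MP_4aec10_nt.LindemannWeierstrassOnLines

open Pool.Agent.Q246.RZ.Parts

/-- **Main result.** Let `F` be a subfield of `ℂ` of finite transcendence degree over `ℚ`, and
`G = ∏ T_i`, where every `T_i` is the multiplicative group or an elliptic curve with invariants in `F`.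
For every point `w` of `Lie G` there is a finite dimensional `ℚ`-space `V` of algebraic numbers with the
following property.  Let `K` be a field of algebraic numbers, and `γ` a tuple of `n` algebraic numbers
which are linearly independent over `K` modulo `K V`.  Then `td (γ, w) ≥ n + td w`; and for every `z` in
`ℂ^n`, if the `z_j`, `j` in `J`, are algebraically independent over `F (w, exp_G w)`, the sum of
`max (0, n + td w - td (z + t γ, w))` over any finite set of numbers `t` in `K` is at most `n - |J|`, for
the points `(z + t γ, w)` of `Lie (𝔾ₘ^n × G)`. -/
theorem result (F : IntermediateField ℚ ℂ) (hF : FiniteTrdeg F) (ι : Type) [Fintype ι]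
    (T : ι → Option PeriodPair) (hT : ∀ i, Inv F (T i)) (w : ι → ℂ) :
    ∃ V : Submodule ℚ ℂ, FiniteDimensional ℚ V ∧ (∀ v ∈ V, IsAlgebraic ℚ v) ∧
      ∀ K : IntermediateField ℚ ℂ, (∀ x ∈ K, IsAlgebraic ℚ x) →
      ∀ (n : ℕ) (γ : Fin n → ℂ), (∀ i, IsAlgebraic ℚ (γ i)) →
        LinearIndependent K (fun i => (Submodule.span K (V : Set ℂ)).mkQ (γ i)) →
        n + td F T w ≤ td F (withTorus n T) (Sum.elim γ w) ∧
        ∀ (z : Fin n → ℂ) (J : Finset (Fin n)),
          AlgebraicIndependent (IntermediateField.adjoin F (Set.range w ∪ values T w))
            (fun j : J => z j) →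
          ∀ S : Finset K, ∑ t ∈ S, (n + td F T w -
            td F (withTorus n T) (Sum.elim (fun i => z i + (t : ℂ) * γ i) w)) ≤ n - J.card :=
  (all F ι T hT).1 hF w

end Pool.Agent.Results.MP_4aec10_nt.LindemannWeierstrassOnLines
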