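import Mathlib
import Pool.Agent.Q246.RZ.Parts

/-!
# Rational combinations of points of the Lie algebra: a zero-one law

`G = ∏ T_i`, where every `T_i` is the multiplicative group (`none`) or an elliptic curve `ℂ / L.lattice`
(`some L`), possibly with complex multiplication and with isogenous or equal factors, with invariants in
any subfield `F` of `ℂ`; for instance `F` can be the algebraic closure of the field generated by the
periods of `G`.  The Lie algebra of `G` is `ℂ^ι`, and up to algebraic numbers over `F` the components of
`exp_G r` are the numbers `e^(r_i)` resp. `℘(r_i)`.  Write `td r` for the transcendence degree over `F`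
of the components of `r` and `exp_G r`.

Let `y_1, …, y_N` be arbitrary points of `Lie G`.  If one of their rational combinations
`y(a) = a_1 y_1 + … + a_N y_N` has `td y(a₀) ≥ m`, then all `y(a)` outside a rational hypersurface of
degree `m`, which does not contain `a₀`, have `td y(a) ≥ m`.  So if the inequality of the problem holds
for one rational combination with `d(exp_G y(a₀)) = dim G`, then it holds for all but `O(H^(N-1))` of the
integral combinations with coefficients at most `H`.
-/

set_option autoImplicit false

namespace Pool.Agent.Results.MP_4aec10_nt.RationalCombinations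

open Pool.Agent.Q246.RZ.Parts

open MvPolynomial in
/-- **Main result.** Let `F` be a subfield of `ℂ`, and `G = ∏ T_i`, where every `T_i` is the
multiplicative group or an elliptic curve with invariants in `F`.  Let `y_1, …, y_N` be points of `Lie G`.
If `td y(a₀) ≥ m` for a rational `a₀`, then there is a form `P` of degree `m` with rational coefficients,
`P(a₀) ≠ 0`, such that `td y(a) ≥ m` for all rational `a` with `P(a) ≠ 0`, and `td y(a) < m` for at most
`m |S|^(N-1)` of the `a` with coordinates in a finite set `S` of rational numbers. -/
theorem result (F : IntermediateField ℚ ℂ) (ι : Type) [Fintype ι] (T : ι → Option PeriodPair)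
    (hT : ∀ i, Inv F (T i)) (N : ℕ) (y : Fin N → ι → ℂ) (m : ℕ) (a₀ : Fin N → ℚ)
    (h : m ≤ td F T (comb y a₀)) :
    (∃ P : MvPolynomial (Fin N) ℚ, P.IsHomogeneous m ∧ eval a₀ P ≠ 0 ∧
      ∀ a : Fin N → ℚ, eval a P ≠ 0 → m ≤ td F T (comb y a)) ∧
    ∀ S : Finset ℚ, {a : Fin N → ℚ | (∀ k, a k ∈ S) ∧ td F T (comb y a) < m}.encard ≤
      ((m * S.card ^ (N - 1) : ℕ) : ℕ∞) :=
  (all F ι T hT).2.1 N y m a₀ h

end Pool.Agent.Results.MP_4aec10_nt.RationalCombinations
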