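import Pool.Agent.Q138.PS.VI
import Pool.Agent.Results.MP_4aec10_nt.TranslatesInWindows

/-!
# Translates of the points of the Lie algebra of `(E × G_m)^n` by logarithms of the algebraic points with coordinates close to
`α P(n)`

Let `q ≥ 2`, let `Λ_i`, `i ∈ ι`, be countably many lattices with rational invariants (for instance all of them) and let `𝒞` be a
countable set of complex numbers. Outside a set of real numbers of Hausdorff dimension at most `q / (q + 1 / (q 2 ^ (q - 1)))`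
(that is `8 / 9` for `q = 2`) every `α > 0` has the following property. There is `η > 0` such that for ALL `i`, ALL `r`, ALL
points `(z, s)` of `Lie (E_i × G_m)^r` with coordinates in `𝒞`, ALL constants `w` in `𝒞`, ALL algebraic numbers `γ`, both signs
`ε` and ALL `δ`, `d` there is `κ > 0` such that for all large `N` and ALL integral polynomials `P` of degree `q` with positive
leading coefficient and coefficients of size at most `N ^ η`: for all but `N ^ (1 - κ)` of the `n ≤ N`, for ALL `r`-tuples of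
distinct integers `t_j` with `|t_j - ⌊α P(n)⌋| ≤ N ^ κ` and ALL translates of `(z, s)` by logarithms of the algebraic points with
the coordinates `ε t_j + γ`, every polynomial relation of degree at most `δ` over number fields of degree at most `d` between the
periods, `w`, the components and the coordinates of the image is an identity in the components.
-/

set_option autoImplicit false

open scoped PeriodPair

namespace Pool.Agent.Results.MP_4aec10_nt.TranslatesAlongRealMultiples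

open Finset Filter Topology
open Pool.Agent.Q138.PS
open Pool.Agent.Results.MP_4aec10_nt.TranslatesInWindows

/-- All translates of `(z, s)` by logarithms of the points with distinct coordinates in `S` are free over their image, `w` and
the periods. -/
def AllFree (Λ : PeriodPair) (δ d : ℕ) {τ r : ℕ} (w : Fin τ → ℂ) (z s : Fin r → ℂ) (S : Set ℂ) : Prop :=
  ∀ x : Fin r → ℂ, Function.Injective x → (∀ i, x i ∈ S) → ∀ u t : Fin r → ℂ, IsTranslate Λ z s x u t →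
    FreeOverImage Λ δ d (Sum.elim w (periods Λ)) u t

theorem winC (Λ : PeriodPair) (hΛ : ∃ a b : ℚ, Λ.g₂ = a ∧ Λ.g₃ = b) (δ d : ℕ) {τ r : ℕ} (w : Fin τ → ℂ) (z s : Fin r → ℂ) :
    WinC (AllFree Λ δ d w z s) := by
  obtain ⟨a, b, ha, hb⟩ := hΛ
  intro m A
  obtain ⟨ρ, hρ⟩ := trdeg_nat (Set.range (periods Λ)) (Set.finite_range _)
  obtain ⟨E, hE⟩ := TranslatesInWindows.result Λ a b ha hb r τ m A δ d
  refine ⟨E, 7 * r + τ + 4 + ρ, fun H ξ hξ hp => ?_⟩
  obtain ⟨S, hS, h⟩ := hE H ξ hξ hp w z s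
  rw [hρ] at hS
  refine ⟨S, by exact_mod_cast hS, ?_⟩
  intro x hx hxS u t hut
  choose g hg1 hg2 hg3 hg4 using hxS
  refine h g (fun i j hij => hx (by rw [hg4 i, hg4 j, hij])) (fun i => ⟨hg1 i, hg2 i, hg3 i⟩) u t ?_
  have : x = fun i => ξ + g i := funext hg4
  rw [← this]
  exact hut

/-- **Theorem.** -/
theorem result (q : ℕ) (hq : 2 ≤ q) {ι : Type} [Countable ι] (Λ : ι → PeriodPair)
    (hΛ : ∀ i, ∃ a b : ℚ, (Λ i).g₂ = a ∧ (Λ i).g₃ = b) (𝒞 : Set ℂ) (h𝒞 : 𝒞.Countable) :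
    ∃ E : Set ℝ, dimH E ≤ ENNReal.ofReal (q / (q + 1 / ((q : ℝ) * 2 ^ (q - 1)))) ∧ ∀ α : ℝ, 0 < α → α ∉ E →
      ∃ η : ℝ, 0 < η ∧ ∀ (i : ι) (τ r : ℕ) (w : Fin τ → ℂ) (z s : Fin r → ℂ), (∀ j, w j ∈ 𝒞) → (∀ j, z j ∈ 𝒞) →
      (∀ j, s j ∈ 𝒞) → ∀ δ d : ℕ, ∀ γ : ℂ, IsAlgebraic ℚ γ → ∀ ε : ℤ, ε = 1 ∨ ε = -1 →
      ∃ κ : ℝ, 0 < κ ∧ ∀ᶠ N : ℕ in atTop, ∀ P : Polynomial ℤ, P.natDegree = q → 0 < P.leadingCoeff →
        (∀ j, |((P.coeff j : ℤ) : ℝ)| ≤ (N : ℝ) ^ η) →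
        (badG (fun S => AllFree (Λ i) δ d w z s ((fun t : ℕ => (ε : ℂ) * t + γ) '' S)) ⌊(N : ℝ) ^ κ⌋₊ α P N : ℝ) ≤
          (N : ℝ) ^ (1 - κ) := by
  classical
  have hC : Countable {x : ℂ // x ∈ 𝒞} := h𝒞.to_subtype
  obtain ⟨E, hE, hg⟩ := win_alg (ι := ι × (ℕ × ℕ) × (Σ τ : ℕ, Fin τ → {x : ℂ // x ∈ 𝒞}) ×
      (Σ r : ℕ, (Fin r → {x : ℂ // x ∈ 𝒞}) × (Fin r → {x : ℂ // x ∈ 𝒞}))) q hq
    (fun i => AllFree (Λ i.1) i.2.1.1 i.2.1.2 (fun j => (i.2.2.1.2 j : ℂ)) (fun j => (i.2.2.2.2.1 j : ℂ))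
      (fun j => (i.2.2.2.2.2 j : ℂ)))
    (fun i S S' hS h x hx hxS => h x hx fun j => hS (hxS j))
    (fun i => winC _ (hΛ i.1) _ _ _ _ _)
  refine ⟨E, hE, fun α hα hαE => ?_⟩
  obtain ⟨η, hη, h1⟩ := hg α hα hαE
  refine ⟨η, hη, fun i τ r w z s hw hz hs δ d γ hγ ε hε => ?_⟩
  exact h1 (i, (δ, d), ⟨τ, fun j => ⟨w j, hw j⟩⟩, ⟨r, fun j => ⟨z j, hz j⟩, fun j => ⟨s j, hs j⟩⟩) γ hγ ε hε

end Pool.Agent.Results.MP_4aec10_nt.TranslatesAlongRealMultiples
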